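import Pool.Agent.helper38.OV.Spec

/-!
# OV: LOG
-/

set_option autoImplicit false

namespace Pool.Agent.OV

open Finset Real Pool.Agent.AT Pool.Agent.helper85.FC Pool.Agent.OM

theorem LOG_sm (M T : ℕ) (hT : 1 ≤ T) (f : ℤ → ℝ) (hf : ∀ v, 0 ≤ f v ∧ f v ≤ 1) (x : ℤ) :
    0 ≤ sm M T f x ∧ sm M T f x ≤ 1 := by
  have hT0 : (0 : ℝ) < T := by exact_mod_cast hT
  unfold sm
  refine ⟨div_nonneg (Finset.sum_nonneg fun t _ => (hf _).1) hT0.le, ?_⟩
  rw [div_le_one hT0]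
  calc ∑ τ ∈ range T, f (x + M * τ) ≤ ∑ τ ∈ range T, (1 : ℝ) :=
        Finset.sum_le_sum fun t _ => (hf _).2
    _ = T := by simp

theorem LOG (hSHA : OP.SHA_stmt) : LOG_stmt := by
  intro a b L Y M κ S T hM hκ hT w hw p hp p' hp' hlt
  obtain ⟨⟨s, i⟩, x⟩ := p
  obtain ⟨⟨s', j⟩, y⟩ := p'
  have hlt' : j < i := hlt
  unfold VG at hp hp'
  rw [Finset.mem_product, Finset.mem_product, Finset.mem_range, Finset.mem_range] at hp hp'
  obtain ⟨⟨hs, hi⟩, _⟩ := hp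
  obtain ⟨⟨hs', hj⟩, hy⟩ := hp'
  have hs1 : s ∈ S := hs
  have hs2 : s' ∈ S := hs'
  have hi1 : i < L := hi
  have hy1 : y < Y := hy
  have hm : i - j ∈ Ico 1 L := by
    rw [Finset.mem_Ico]
    omega
  obtain ⟨hT1, hTb⟩ := hT s hs1 s' hs2 (i - j) hm
  have hT0 : (0 : ℝ) < T s s' (i - j) := by exact_mod_cast hT1
  have hM0 : (0 : ℝ) < M := by exact_mod_cast hM
  have hwf : ∀ v, 0 ≤ w s s' (i - j) v ∧ w s s' (i - j) v ≤ 1 := fun v => hw _ _ _ v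
  have hkg : kg a b (PG M T w) ((s, i), x) ((s', j), y) =
      sm M (T s s' (i - j)) (w s s' (i - j))
        ((nb a b s s' (i - j) : ℤ) * x - (na a b s s' (i - j) : ℤ) * y) := by
    unfold kg PG
    rw [if_pos hlt']
  have hfg : fg a b M κ T w ((s, i), x) ((s', j), y) =
      max 0 (sm M (T s s' (i - j)) (w s s' (i - j))
        ((nb a b s s' (i - j) : ℤ) * x - (na a b s s' (i - j) : ℤ) * ((y % M : ℕ) : ℤ)) - 2 * κ) := rfl
  set f := w s s' (i - j) with hf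
  set A := na a b s s' (i - j) with hA
  set B := nb a b s s' (i - j) with hB
  set t := T s s' (i - j) with ht
  refine ⟨by rw [hfg]; exact le_max_left _ _, ?_, ?_⟩
  · rw [hfg]
    refine max_le zero_le_one ?_
    have h1 := (LOG_sm M t hT1 f hwf ((B : ℤ) * x - (A : ℤ) * ((y % M : ℕ) : ℤ))).2
    linarith
  · rw [hfg, hkg]
    refine max_le (LOG_sm M t hT1 f hwf _).1 ?_
    have h1 := hSHA M t ((A : ℤ) * ((y / M : ℕ) : ℤ)) ((B : ℤ) * x - (A : ℤ) * y) f hT1 hwf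
    have h2 : (B : ℤ) * x - (A : ℤ) * y + M * ((A : ℤ) * ((y / M : ℕ) : ℤ)) =
        (B : ℤ) * x - (A : ℤ) * ((y % M : ℕ) : ℤ) := by
      have h3 : (y : ℤ) = ((y % M : ℕ) : ℤ) + (M : ℤ) * ((y / M : ℕ) : ℤ) := by
        exact_mod_cast (Nat.mod_add_div y M).symm
      have h4 : (A : ℤ) * y = (A : ℤ) * (((y % M : ℕ) : ℤ) + (M : ℤ) * ((y / M : ℕ) : ℤ)) := by
        rw [← h3]
      rw [h4]
      ring
    rw [h2] at h1
    have h5 : |(((A : ℤ) * ((y / M : ℕ) : ℤ) : ℤ) : ℝ)| / t ≤ 2 * κ := by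
      rw [div_le_iff₀ hT0]
      have h6 : (((A : ℤ) * ((y / M : ℕ) : ℤ) : ℤ) : ℝ) = (A : ℝ) * ((y / M : ℕ) : ℝ) := by
        rw [Int.cast_mul, Int.cast_natCast, Int.cast_natCast]
      have h6' : (0 : ℝ) ≤ (A : ℝ) * ((y / M : ℕ) : ℝ) := by positivity
      rw [h6, abs_of_nonneg h6']
      have h7 : ((y / M : ℕ) : ℝ) * M ≤ Y := by
        have h8 : y / M * M ≤ Y := (Nat.div_mul_le_self y M).trans hy1.le
        exact_mod_cast h8
      have h9 : (A : ℝ) * ((y / M : ℕ) : ℝ) * M ≤ 2 * κ * t * M := by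
        calc (A : ℝ) * ((y / M : ℕ) : ℝ) * M = (A : ℝ) * (((y / M : ℕ) : ℝ) * M) := by ring
          _ ≤ (A : ℝ) * Y := mul_le_mul_of_nonneg_left h7 (by positivity)
          _ ≤ 2 * κ * (M * t) := hTb
          _ = 2 * κ * t * M := by ring
      exact le_of_mul_le_mul_right h9 hM0
    have h10 := (abs_le.mp (h1.trans h5)).2
    linarith

end Pool.Agent.OV
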